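import Mathlib
import Pool.Agent.N489.SD.Defs
import Pool.Agent.N489.SD.Main

set_option autoImplicit false

/-!
# Pointwise function spaces into strong d-spaces need not be strong d-spaces
-/

namespace Pool.Agent.Results.MP_5f2357_gt.FunctionSpace

open Pool.Agent.N489.SD

/-- **Negative answer to Q1.** There is a strong d-space `Y` such that for no disconnected space `X`
(for instance the discrete space with two points) the space of continuous maps `X → Y`, with the
topology of pointwise convergence, is a strong d-space. -/
theorem result : ∃ (Y : Type) (_ : TopologicalSpace Y), StrongDSpace Y ∧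
    (T0Space Bool ∧ ¬ StrongDSpace {f : Bool → Y // Continuous f}) ∧
    ∀ (X : Type) [TopologicalSpace X], ¬ PreconnectedSpace X →
      ¬ StrongDSpace {f : X → Y // Continuous f} := by
  obtain ⟨Y, t, h1, h2⟩ := exists_square
  refine ⟨Y, t, h1, ⟨inferInstance, not_function_space h2 Bool ?_⟩,
    fun X _ hX => not_function_space h2 X hX⟩
  intro h
  have h3 := (preconnectedSpace_iff_clopen.1 h) {true} (isClopen_discrete _)
  rcases h3 with h3 | h3
  · exact Set.singleton_ne_empty _ h3
  · have : false ∈ ({true} : Set Bool) := by rw [h3]; trivial
    simp at this

end Pool.Agent.Results.MP_5f2357_gt.FunctionSpace
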